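import Pool.Agent.TH365.TwoGenSep

set_option autoImplicit false

/-!
# MP_5e7226_co: unconditional bodies whose extreme points are in coordinate planes

Let `K` be a convex body in `ℝ^d` with interior point `o`, unconditional about `o` with respect to
some basis `v` (that is, invariant under the `d` reflections about `o` which change the sign of one
coordinate with respect to `v`), and suppose that every extreme point of `K` has at most two
nonzero coordinates with respect to `o` and `v`. Then at most `2 ^ d` hyperplanes separate all
faces of `K` from `o`. In polar form: every unconditional convex body all of whose facet normals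
have at most two nonzero coordinates is illuminated by `2 ^ d` directions.

The proof. Let `r i` be the half widths of `K`, and join `i` and `j` if the whole coordinate
rectangle with half sides `r i`, `r j` is in `K`. To each sign vector `σ` an independent set `H σ` of
this graph is assigned, and the hyperplane has the normal vector with coordinates `σ i p i / r i`,
`p i = 1` for `i` in `H σ` and `p i = 1 / 2` otherwise. The selection lemma
(`Pool.Agent.TH365.TwoGen.star`): for every independent set `A` and all choices of signs outside the
neighbourhood of `A`, some `σ` with these signs has `A ⊆ H σ`.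
-/

open scoped InnerProductSpace

namespace Pool.Agent.Results.MP_5e7226_co.UnconditionalPlanes

/-- `K` is a convex body in `ℝ^d` with interior point `o`, invariant under the reflections about `o`
changing the sign of one coordinate with respect to the basis `v`, and every extreme point of `K`
is in a plane (or line) through `o` spanned by vectors of the basis. Then a set `H` of at most
`2 ^ d` hyperplanes `{x | ⟪h.1, x⟫ = h.2}` not passing through `o` is given such that every face of
`K` lies strictly on the side not containing `o` of one of them. -/
theorem result (d : ℕ) (K : Set (EuclideanSpace ℝ (Fin d))) (hKc : IsCompact K)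
    (hK : Convex ℝ K) (o : EuclideanSpace ℝ (Fin d)) (ho : o ∈ interior K)
    (v : Module.Basis (Fin d) ℝ (EuclideanSpace ℝ (Fin d)))
    (hflip : ∀ x ∈ K, ∀ i, x - (2 * v.repr (x - o) i) • v i ∈ K)
    (hext : ∀ x ∈ K.extremePoints ℝ, ∃ (i j : Fin d) (s t : ℝ), x = o + s • v i + t • v j) :
    ∃ H : Finset (EuclideanSpace ℝ (Fin d) × ℝ), H.card ≤ 2 ^ d ∧
      (∀ h ∈ H, ⟪h.1, o⟫_ℝ < h.2) ∧
      ∀ w x₀ : EuclideanSpace ℝ (Fin d), w ≠ 0 → x₀ ∈ K → (∀ y ∈ K, ⟪w, y⟫_ℝ ≤ ⟪w, x₀⟫_ℝ) →
        ∃ h ∈ H, ∀ x ∈ K, ⟪w, x⟫_ℝ = ⟪w, x₀⟫_ℝ → h.2 < ⟪h.1, x⟫_ℝ :=
  Pool.Agent.TH365.TwoGen.Body.separation ⟨K, hKc, hK, o, ho, v, hflip⟩ hext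

end Pool.Agent.Results.MP_5e7226_co.UnconditionalPlanes
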